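import Pool.Agent.PSV.StmtsS

set_option autoImplicit false

/-!
# Squad PSV, row SZM: the size is monotone, every family has a size
-/

namespace Pool.Agent.PSV.H60

open Matrix Polynomial Filter Pool.Agent.MT100 Pool.Agent.MT100G Pool.Agent.MT100D

theorem gtc_mono {B B' : ℕ} (hB : B ≤ B') {f : PowerSeries ℚ} (h : GTC B f) : GTC B' f := by
  intro k
  obtain ⟨h1, D, hD0, hD, h2⟩ := h k
  refine ⟨h1.trans ?_, D, hD0, hD.trans (Nat.pow_le_pow_left hB _), h2⟩
  have h3 : (B : ℚ) ≤ (B' : ℚ) := by exact_mod_cast hB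
  exact pow_le_pow_left₀ (Nat.cast_nonneg B) h3 _

theorem pb_mono {n n' B B' : ℕ} (hn : n ≤ n') (hB : B ≤ B') {p : ℤ[X]} (h : PB n B p) :
    PB n' B' p := by
  refine ⟨h.1.trans hn, fun k => (h.2 k).trans ?_⟩
  exact_mod_cast hB

theorem rb_mono {B B' : ℕ} (hB : B ≤ B') {r : ℚ} (h : RB B r) : RB B' r := by
  refine ⟨h.1.trans hB, h.2.trans ?_⟩
  exact_mod_cast hB

theorem siz_mono {d : Type} [Fintype d] [DecidableEq d] {n n' B B' : ℕ}
    {H K : Matrix d d (PowerSeries ℚ)} {N : Matrix d d ℤ} {δ : d → ℚ} {q : ℤ[X]}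
    {Bm : Matrix d d ℤ[X]} (hn : n ≤ n') (hB : B ≤ B') (h : Siz n B H K N δ q Bm) :
    Siz n' B' H K N δ q Bm := by
  refine ⟨h.sys, h.two.trans hB, h.card.trans hn, pb_mono hn hB h.hq,
    fun i j => pb_mono hn hB (h.hM i j), fun i j => (h.hN i j).trans ?_,
    fun i => rb_mono hB (h.hδ i), fun i j => gtc_mono hB (h.gH i j),
    fun i j => gtc_mono hB (h.gK i j)⟩
  exact_mod_cast hB

theorem ev_gtc {f : PowerSeries ℚ} (h : GType f) : ∀ᶠ B : ℕ in atTop, GTC B f := by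
  obtain ⟨C, -, hC⟩ := h
  exact (eventually_ge_atTop C).mono fun B hB => gtc_mono hB hC

theorem ev_coeff (p : ℤ[X]) : ∀ᶠ B : ℕ in atTop, ∀ k, |p.coeff k| ≤ (B : ℤ) := by
  refine (eventually_ge_atTop (∑ k ∈ p.support, (p.coeff k).natAbs)).mono fun B hB k => ?_
  by_cases hk : k ∈ p.support
  · have h1 := Finset.single_le_sum (f := fun k => (p.coeff k).natAbs)
      (fun i _ => Nat.zero_le _) hk
    have h2 : (p.coeff k).natAbs ≤ B := h1.trans hB
    rw [Int.abs_eq_natAbs]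
    exact_mod_cast h2
  · rw [notMem_support_iff.1 hk, abs_zero]
    exact Int.natCast_nonneg B

theorem ev_rb (r : ℚ) : ∀ᶠ B : ℕ in atTop, RB B r := by
  refine (eventually_ge_atTop (r.den + r.num.natAbs)).mono fun B hB => ⟨by omega, ?_⟩
  have h1 : |r| ≤ (r.num.natAbs : ℚ) := by
    have h2 : (1 : ℚ) ≤ (r.den : ℚ) := by exact_mod_cast r.den_pos
    have h3 : r * r.den = r.num := Rat.mul_den_eq_num r
    have h4 : |r| * r.den = |(r.num : ℚ)| := by
      rw [← h3, abs_mul, abs_of_nonneg (by positivity : (0 : ℚ) ≤ (r.den : ℚ))]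
    have h5 : |(r.num : ℚ)| = (r.num.natAbs : ℚ) := by
      rw [Nat.cast_natAbs, Int.cast_abs]
    rw [← h5, ← h4]
    exact le_mul_of_one_le_right (abs_nonneg r) h2
  refine h1.trans ?_
  have h2 : r.num.natAbs ≤ B := by omega
  exact_mod_cast h2

theorem szm : SzmStmt := by
  refine ⟨fun d _ _ n n' B B' H K N δ q Bm hn hB h => siz_mono hn hB h, ?_⟩
  intro d _ _ F
  have hn : ∀ᶠ n : ℕ in atTop, Fintype.card d ≤ n ∧ F.q.natDegree ≤ n ∧
      ∀ i j, (F.B i j).natDegree ≤ n :=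
    (eventually_ge_atTop _).and ((eventually_ge_atTop _).and
      (eventually_all.2 fun i => eventually_all.2 fun j => eventually_ge_atTop _))
  have hB : ∀ᶠ B : ℕ in atTop, 2 ≤ B ∧ (∀ k, |F.q.coeff k| ≤ (B : ℤ)) ∧
      (∀ i j k, |(F.B i j).coeff k| ≤ (B : ℤ)) ∧ (∀ i j, |F.N i j| ≤ (B : ℤ)) ∧
      (∀ i, RB B (F.δ i)) ∧ (∀ i j, GTC B (F.H i j)) ∧ ∀ i j, GTC B (F.K i j) := by
    refine (eventually_ge_atTop 2).and ((ev_coeff _).and (Eventually.and ?_ (Eventually.and ?_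
      (Eventually.and ?_ (Eventually.and ?_ ?_)))))
    · exact eventually_all.2 fun i => eventually_all.2 fun j => ev_coeff _
    · refine eventually_all.2 fun i => eventually_all.2 fun j => ?_
      refine (eventually_ge_atTop (F.N i j).natAbs).mono fun B hB => ?_
      rw [Int.abs_eq_natAbs]
      exact_mod_cast hB
    · exact eventually_all.2 fun i => ev_rb _
    · exact eventually_all.2 fun i => eventually_all.2 fun j => ev_gtc (F.sys.gH i j)
    · exact eventually_all.2 fun i => eventually_all.2 fun j => ev_gtc (F.sys.gK i j)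
  obtain ⟨n, h1, h2, h3⟩ := hn.exists
  obtain ⟨B, h4, h5, h6, h7, h8, h9, h10⟩ := hB.exists
  exact ⟨n, B, F.sys, h4, h1, ⟨h2, h5⟩, fun i j => ⟨h3 i j, h6 i j⟩, h7, h8, h9, h10⟩

end Pool.Agent.PSV.H60
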